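import Mathlib
import Pool.Agent.Q29.EP.RowsCT
import Pool.Agent.TH170.GS.Rel
import Pool.Agent.TH117.PO.Full

/-!
# The standard conjecture of Hodge type for abelian varieties over finite fields with one half of all
slope types of every CM field of degree `2 r ^ k`

Over an algebraic closure of the field with `p` elements each abelian variety is isogenous to the
reduction of an abelian variety of CM type (Honda, Tate). So an abelian variety over the field with
`p ^ a` elements is modelled by `RedAV`: a finite product of CM types `(E i, Φ i)` with Weil numbers
`π i ∈ E i` that satisfy the formula of Shimura and Taniyama; its cohomology of degree `n`, with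
coefficients in an algebraically closed field `Ω`, consists of the alternating `n`-forms on
`Ω ⊗ H_1`, on which the Frobenius endomorphism acts by `π`. We fix an isomorphism `ν` of the algebraic
closure of `ℚ_p` with `ℂ`; it defines a `p`-adic valuation of `ℂ`, with the value one at `p`.

Let `K i` (`i` in a finite set) be CM fields of degree `2 g i` which are pairwise independent: for
`i ≠ k` and all complex embeddings `φ` of `K i` and `ψ` of `K k` some automorphism of `ℂ` is the
identity on `φ (K i)` and the complex conjugation on `ψ (K k)` (this is no condition if there is
only one field). Let `M i` be a function with integral values on the complex embeddings of `K i`,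
invariant under complex conjugation (the weights). A CM type `Φ i` of `K i` (a choice of one element
out of each complex conjugate pair of embeddings), `M i` and a real number `κ ≠ 0` prescribe the
slopes `(a + κ M) / 2` (at the embeddings in `Φ i`) and `(a - κ M) / 2` (outside of `Φ i`) of a Weil
number for `p ^ a` in `K i`. If `p` splits completely in `K i` then, by Honda and Tate, all rational
slopes between `0` and `a` that are symmetric in this way occur for abelian varieties over finite
fields. The case `M = 1`, `κ = a` is the ordinary case.

**The property of the slope types** (`Q`, `Holds`). Let `𝒞` (`OfTypes`) be the class of the abelian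
varieties `Y` each of whose factors is supersingular or has a Frobenius endomorphism some power of
which is, for some `i`, a Weil number in `K i` with the slopes prescribed by `Φ i`, `M i` and some real
number `κ i ≠ 0` (which depends only on `Y` and `i`). So `Y` is, over an algebraic closure, isogenous
to a product of powers of one abelian variety for each `i`, with the given slopes, and of a
supersingular one. `Q` is the standard conjecture of Hodge type for all `Y` in `𝒞`, all
polarizations and all codimensions `r`, `dim Y = 2 r + m`: a class `z` in `H^{2 r}(Y)` of an algebraic
cycle which is primitive and not zero has `(-1)^r z ∪ z ∪ E^m > 0`. The class `𝒞` contains all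
products of powers of its members, and the products of its members with supersingular abelian
varieties; if `M = 1` and `κ = a` it contains all ordinary abelian varieties with the CM types `Φ i`.

The space of the classes of algebraic cycles of degree `card κ` on `Y`, with rational coefficients, is
`C Y κ`; the properties of these spaces that are used are known theorems, as in the starting file
`AlmostAllSlopeTypes` of this folder: they are closed under sums, cup products, pull-backs and
push-forwards, they contain the Hodge classes of degree two of the liftings (Lefschetz) and the split
Weil classes of degree four and six (Markman; not needed here), and the Tate classes of degree two are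
combinations of such classes (Tate) (`IsCycleSystem`); the positivity of the Rosati involution (Weil,
`IsRosatiPositive`); classes of cycles are Tate classes over finite extensions (`AreTate`). The
polarizations are those compatible with the complex multiplications of the lifting (`IsPolar`, with
the Riemann form `∑ i, Tr (α i * conj (x i) * y i)`); by theorems of Honda, Tate and Zink each
polarized abelian variety over an algebraic closure of a finite field is isogenous to the reduction of
such a polarized abelian variety. That the positivity follows if all Tate classes are combinations of
products of classes of divisors is a theorem of the starting files (`Pool.Agent.TH117.PO`).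

**The theorem.** Let `E` be **any CM field of degree `2 g = 2 r ^ k`**, `r` a prime number, of
degree at least `16` if `r = 2`. Nothing is assumed about the Galois group of the normal closure of
`E`, and nothing about the subfields of `E`.

* (`HalfOfAll`) For all weights `M` (odd if `r = 2`; if `r` is odd then `r` may divide some, but not
  all of them) the property `Q` is true for **at least one half of all `2 ^ g` types** of `E`.
* (`MostWithWeightsOne`) For the weights `M = 1` (for instance in the ordinary case) it is true for
  at least `(1 - 1 / r) 2 ^ g` of the types.
* (`OneOfTwo`) There is a set `B` of embeddings of `E`, stable under complex conjugation, such that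
  for **every** type `Φ` it is true for `Φ` or for the symmetric difference of `Φ` and `B`.
* (`SixteenPercent`) There is a number `g₀` such that for every CM field that is **abelian over
  `ℚ`**, of any degree `2 g ≥ 2 g₀`, and all odd weights it is true for at least 16 percent of all
  `2 ^ g` types; again nothing is assumed on the subfields.

All this is proved for finitely many pairwise independent fields `K i`; the proportions are then
multiplied.

**What is new.** The starting file `AlmostAllSlopeTypes` has the property `Q` for all families of
types but at most `2 ^ (∑ g i) ∑ ρ (K i)`, for weights without zeros. Nothing follows if `ρ (K)` is at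
least one, and this is so for the fields with many small CM subfields: an imaginary quadratic subfield
contributes about `√(2 / (π g))` to `ρ (K)`, and a multiquadratic field `K` has `g` of them. Here the
proportion is one half for **all** fields of degree `2 r ^ k`; for odd `r` some of the weights may be
zero, that is, the slope `a / 2` may occur. The proportion one half is sharp for the types without
relations if `r = 2`: if `E` is multiquadratic and `M = 1` then a proportion `1 / 2 - O (g ^ (-1 / 2))`
of the types is degenerate. The theorems on the types without relations (`Pool.Agent.Q29.DP`,
`Pool.Agent.Q29.EP`) are those of the starting files, where they are applied to the conjecture of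
Parshin (`HalfOfAllTimes` in MP_de59b4_ag) only.

**The proof.** If there are relations between the Frobenius eigenvalues of a member of `𝒞` that are
not generated by those of the complex conjugate pairs, then for one of the types
`∑ n φ * e (σ φ) = 0` for all automorphisms `σ` of `ℂ`, where `e = ± M` are the signed weights and
`n ≠ 0` is an integral function with `n (conj φ) = - n φ`. Let `P` be a Sylow `r`-subgroup of the
Galois group of the normal closure and `R` the lattice of the relations for all `σ` in `P`. If `R ≠ 0`
then it contains an element `n`, not in `r R`, which is fixed modulo `r R` by `P`. If `r` is odd then
`P` has two orbits on the set of the embeddings, and `n` is constant modulo `r` on an orbit `O`; so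
the sum of `e` over `O` is divisible by `r`, and it is not after a change of the type at one place.
For `r = 2` see `HalfOfAllTimes` in MP_de59b4_ag. If there are no such relations then all algebraic
classes on `Y` in `𝒞` are combinations of products of divisor classes, for which the positivity
follows from the one of the Rosati involution.
-/

set_option autoImplicit false

namespace Pool.Agent.Results.MP_ffcd14_ag.HalfOfAllSlopeTypes

open NumberField Module Pool.Agent.H204R3.CM Pool.Agent.H977R3.CM Pool.Agent.TH170
  Pool.Agent.Q29.EP

open Pool.Agent.TH117.PO Pool.Agent.W495.TA Pool.Agent.W547.KB

open Pool.Agent.Q29.DP (notMem_degTypes_of_noRelations)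

/-- The standard conjecture of Hodge type for all abelian varieties `Y` with the slope types `Φ`: for
each primitive class `z ≠ 0` in `H^{2 r}(Y)` of an algebraic cycle, `(-1)^r z ∪ z ∪ E^m > 0`, where `E`
is the class of the polarization given by `α`, and `dim Y = 2 r + m`. -/
def Holds {p : ℕ} [Fact p.Prime] (ν : PadicAlgCl p ≃+* ℂ) {I : Type} (K : I → Type)
    [∀ i, Field (K i)] (M : ∀ i, (K i →+* ℂ) → ℤ) (Φ : ∀ i, Set (K i →+* ℂ)) : Prop :=
  ∀ (Ω : Type) [Field Ω] [CharZero Ω] [IsAlgClosed Ω]
    (C : (Y : RedAV p ν) → (κ : Type) → ((TM Ω Y) [⋀^κ]→ₗ[Ω] Ω) → Prop), IsCycleSystem Ω C →
    IsRosatiPositive Ω C → AreTate Ω C → ∀ Y : RedAV p ν, GS.OfTypes K M Φ Y →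
      ∀ α : Y.X.H1, IsPolar Y.X α → ∀ r m : ℕ, 2 * (2 * r + m) = finrank ℚ Y.X.H1 →
        ∀ z : (TM Ω Y) [⋀^Fin r × Fin 2]→ₗ[Ω] Ω, C Y (Fin r × Fin 2) z → z ≠ 0 →
          IsPrim α m z → IsPosClass α m z

/-- The property of the slope types `Φ i` with the weights `M i`. -/
def Q : TypeProperty := fun _ _ ν _ _ K _ _ _ M Φ => Holds ν K M Φ

theorem without_relations : WithoutRelations Q := by
  intro p _ ν I _ K _ _ _ M Φ hind hMc hΦ hno Ω _ _ _ C hC hR hT Y hY α hα r m hrm z hz hz0 hprim
  exact positive_full hC hR hT (Or.inr ⟨Y, GS.elementary_of_types hind hMc hΦ
    (fun i => notMem_degTypes_of_noRelations (hno i)) hY, fun k => Or.inr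
      ⟨k, RingHom.id _, 1, 1, one_pos, one_pos, rfl, rfl⟩⟩) hα hrm hz hz0 hprim

/-- **The standard conjecture of Hodge type for the abelian varieties over finite fields with one half
of all slope types of every CM field of degree `2 r ^ k`.** -/
theorem result : HalfOfAll Q ∧ MostWithWeightsOne Q ∧ OneOfTwo Q ∧ SixteenPercent Q :=
  ⟨halfOfAll without_relations, mostWithWeightsOne without_relations,
    oneOfTwo without_relations, sixteenPercent without_relations⟩

end Pool.Agent.Results.MP_ffcd14_ag.HalfOfAllSlopeTypes
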